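import Pool.Agent.H85T.Equiv

/-!
# MP_b5f63d_co: kissing numbers and the spherical codes of larger angles and of caps

A spherical code of a larger angle, or a code inside a cap, which is too large forces kissing
numbers (spherical codes of angle `θ`) beyond Wyner's bound: an inequality valid in every
dimension, and characterizations of the equalities `c_+ = (1/2) log_2 (4/3)` and
`c_- = (1/2) log_2 (4/3)` by upper bounds for the codes of every larger angle, by upper bounds for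
the codes inside caps, and by the essential disjointness of the caps of radius `θ` about the points
of a code.
-/

open MeasureTheory Metric Filter
open scoped InnerProductSpace

namespace Pool.Agent.Results.MP_b5f63d_co.AngleTransfer

/-- `C` is a spherical code of `ℝⁿ` of angle `θ`: a finite set of unit vectors such that any two
distinct ones have inner product at most `cos θ`. -/
def IsCode (n : ℕ) (θ : ℝ) (C : Finset (EuclideanSpace ℝ (Fin n))) : Prop :=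
  (∀ x ∈ C, ‖x‖ = 1) ∧ ∀ x ∈ C, ∀ y ∈ C, x ≠ y → ⟪x, y⟫_ℝ ≤ Real.cos θ

/-- `A n θ`: the largest number of points of a spherical code of `ℝⁿ` of angle `θ`. The kissing
number is `τ(n) = A n (π / 3)`. -/
noncomputable def A (n : ℕ) (θ : ℝ) : ℕ :=
  sSup {k | ∃ C : Finset (EuclideanSpace ℝ (Fin n)), IsCode n θ C ∧ C.card = k}

/-- the upper exponent of the spherical codes of angle `θ` (`c_+` for `θ = π / 3`) -/
noncomputable def upper (θ : ℝ) : ℝ := limsup (fun n : ℕ => Real.logb 2 (A n θ) / n) atTop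

/-- the lower exponent of the spherical codes of angle `θ` (`c_-` for `θ = π / 3`) -/
noncomputable def lower (θ : ℝ) : ℝ := liminf (fun n : ℕ => Real.logb 2 (A n θ) / n) atTop

/-- `C` lies in the cap of angular radius `α` about the unit vector `e`. -/
def InCap {n : ℕ} (α : ℝ) (e : EuclideanSpace ℝ (Fin n))
    (C : Finset (EuclideanSpace ℝ (Fin n))) : Prop :=
  ‖e‖ = 1 ∧ ∀ x ∈ C, Real.cos α ≤ ⟪x, e⟫_ℝ

/-- Every spherical code of `ℝⁿ` of angle `θ` in a cap of radius `α` has at most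
`2 ^ (ε n) (1 + (sin α / tan θ)²) ^ (n / 2)` points. -/
def SmallInCaps (n : ℕ) (θ α ε : ℝ) : Prop :=
  ∀ (C : Finset (EuclideanSpace ℝ (Fin n))) (e : EuclideanSpace ℝ (Fin n)), IsCode n θ C →
    InCap α e C →
    (C.card : ℝ) ≤ (2 : ℝ) ^ (ε * n) * (1 + (Real.sin α / Real.tan θ) ^ 2) ^ ((n : ℝ) / 2)

/-- The points of the unit ball with an angle smaller than `θ` to some point of `C`. -/
def around {n : ℕ} (θ : ℝ) (C : Finset (EuclideanSpace ℝ (Fin n))) :
    Set (EuclideanSpace ℝ (Fin n)) :=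
  {y | (∃ x ∈ C, Real.cos θ * ‖y‖ < ⟪x, y⟫_ℝ) ∧ ‖y‖ < 1}

/-- For every spherical code `C` of `ℝⁿ` of angle `θ` the caps of radius `θ` about the points of
`C` are disjoint up to a factor `2 ^ (ε n)`: the volume of `around θ C` is at least
`2 ^ (-ε n) |C| sin θ ^ n vol(B)`. -/
def EssentiallyDisjoint (n : ℕ) (θ ε : ℝ) : Prop :=
  ∀ C : Finset (EuclideanSpace ℝ (Fin n)), IsCode n θ C →
    (C.card : ℝ) * (Real.sin θ ^ n * volume.real (ball (0 : EuclideanSpace ℝ (Fin n)) 1)) ≤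
      (2 : ℝ) ^ (ε * n) * volume.real (around θ C)

/-- The inequality between `M` and `a = A n θ`, with `m = n` or `n - 1`, for the parameters `α`
and `k`. -/
def Ineq (θ α k M K a : ℝ) (m : ℕ) : Prop :=
  M ≤ K * a * ((1 - (Real.cos α * Real.cos θ - k) ^ 2) ^ ((m : ℝ) / 2) +
    M * (Real.sin θ ^ 2 - (k / Real.sin α) ^ 2) ^ ((m : ℝ) / 2))

/-- The equivalences for the angle `θ` with Wyner's exponent `w`; `b φ` is the bound for the
exponent of the codes of the larger angle `φ`. -/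
def Equivalences (θ w : ℝ) (b : ℝ → ℝ) : Prop :=
  -- the upper exponent
  (upper θ = w ↔ ∀ φ : ℝ, θ < φ → φ < Real.pi / 2 → upper φ ≤ b φ) ∧
  (upper θ = w ↔ ∀ α : ℝ, 0 < α → α < Real.pi / 2 → ∀ ε : ℝ, 0 < ε →
    ∀ᶠ n : ℕ in atTop, SmallInCaps n θ α ε) ∧
  (upper θ = w ↔ ∀ ε : ℝ, 0 < ε → ∀ᶠ n : ℕ in atTop, EssentiallyDisjoint n θ ε) ∧
  -- the lower exponent
  (lower θ = w ↔ ∀ φ : ℝ, θ < φ → φ < Real.pi / 2 → lower φ ≤ b φ) ∧
  (lower θ = w ↔ ∀ α : ℝ, 0 < α → α < Real.pi / 2 → ∀ ε : ℝ, 0 < ε →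
    ∃ᶠ n : ℕ in atTop, SmallInCaps n θ α ε) ∧
  (lower θ = w ↔ ∀ ε : ℝ, 0 < ε → ∃ᶠ n : ℕ in atTop, EssentiallyDisjoint n θ ε)

open Pool.Agent.H818R2 Pool.Agent.H85G Pool.Agent.H85T

lemma around_eq {n : ℕ} (θ : ℝ) (C : Finset (EuclideanSpace ℝ (Fin n))) :
    around θ C = nbh θ C ∩ ball 0 1 := by
  ext y
  simp only [around, nbh, Set.mem_ofPred_eq, Set.mem_inter_iff, mem_ball_zero_iff]

lemma disj_iff (n : ℕ) (θ ε : ℝ) : EssentiallyDisjoint n θ ε ↔ NbhBound n θ ε := by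
  unfold EssentiallyDisjoint NbhBound
  simp only [around_eq]
  rfl

lemma caps_iff (n : ℕ) (θ α ε : ℝ) : SmallInCaps n θ α ε ↔ CapBound n θ α ((2 : ℝ) ^ (ε * n) *
    (1 + (Real.sin α / Real.tan θ) ^ 2) ^ ((n : ℝ) / 2)) := by
  unfold SmallInCaps CapBound InCap
  exact ⟨fun h C e hC he hCe => h C e hC ⟨he, hCe⟩, fun h C e hC he => h C e hC he.1 he.2⟩

lemma upper_eq (θ : ℝ) : upper θ = limsup (codeRate θ) atTop := rfl

lemma lower_eq (θ : ℝ) : lower θ = liminf (codeRate θ) atTop := rfl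

theorem equivalences {θ : ℝ} (h0 : 0 < θ) (h1 : θ < Real.pi / 2) :
    Equivalences θ (-Real.logb 2 (Real.sin θ)) (bnd θ) := by
  unfold Equivalences
  simp only [upper_eq, lower_eq, disj_iff, caps_iff]
  rw [sup_iff h0 h1, inf_iff h0 h1]
  refine ⟨⟨fun h φ hφ1 hφ2 => ?_, fun h => ?_⟩, ⟨?_, ?_⟩, ⟨?_, ?_⟩,
    ⟨fun h φ hφ1 hφ2 => ?_, fun h => ?_⟩, ⟨?_, ?_⟩, ⟨?_, ?_⟩⟩
  · exact (ev_iff (h0.trans hφ1) hφ2).2 (a_b h0 h1 mono_ev h φ hφ1 hφ2)
  · exact b_a h0 h1 (F := fun P => ∀ᶠ n in atTop, P n) mono_ev fun φ hφ1 hφ2 =>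
      (ev_iff (h0.trans hφ1) hφ2).1 (h φ hφ1 hφ2)
  · exact a_c h0 h1 (F := fun P => ∀ᶠ n in atTop, P n) mono_ev
  · exact c_a h0 h1 (F := fun P => ∀ᶠ n in atTop, P n) mono_ev shift_ev
  · exact a_d h0 h1 (F := fun P => ∀ᶠ n in atTop, P n) mono_ev
  · exact d_a h0 h1 (F := fun P => ∀ᶠ n in atTop, P n) mono_ev
  · exact (fr_iff (h0.trans hφ1) hφ2).2
      (a_b h0 h1 (F := fun P => ∃ᶠ n in atTop, P n) mono_fr h φ hφ1 hφ2)
  · exact b_a h0 h1 (F := fun P => ∃ᶠ n in atTop, P n) mono_fr fun φ hφ1 hφ2 =>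
      (fr_iff (h0.trans hφ1) hφ2).1 (h φ hφ1 hφ2)
  · exact a_c h0 h1 (F := fun P => ∃ᶠ n in atTop, P n) mono_fr
  · exact c_a h0 h1 (F := fun P => ∃ᶠ n in atTop, P n) mono_fr shift_fr
  · exact a_d h0 h1 (F := fun P => ∃ᶠ n in atTop, P n) mono_fr
  · exact d_a h0 h1 (F := fun P => ∃ᶠ n in atTop, P n) mono_fr

lemma sqrt_pow_eq' {x : ℝ} (m : ℕ) (hx : 0 ≤ x) : √x ^ m = x ^ ((m : ℝ) / 2) := by
  rw [Real.sqrt_eq_rpow, ← Real.rpow_natCast, ← Real.rpow_mul hx]
  congr 1; ring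

lemma kiss_w : -Real.logb 2 (Real.sin (Real.pi / 3)) = 1 / 2 * Real.logb 2 (4 / 3) := by
  rw [Real.sin_pi_div_three]
  have h : (4 : ℝ) / 3 = ((√3 / 2) ^ 2)⁻¹ := by
    rw [div_pow, Real.sq_sqrt (by norm_num)]; norm_num
  rw [h, Real.logb_inv, Real.logb_pow]
  push_cast
  ring

lemma kiss_b : bnd (Real.pi / 3) =
    fun φ => 1 / 2 * Real.logb 2 (1 + 1 / (6 * (1 - Real.cos φ))) := by
  funext φ
  unfold bnd
  rw [Real.cos_pi_div_three]
  congr 3
  rcases eq_or_ne (1 - Real.cos φ) 0 with h | h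
  · rw [h]; norm_num
  · field_simp
    norm_num

/-- the inequality for the codes of a cap -/
theorem cap {θ : ℝ} (h0 : 0 < θ) (h1 : θ < Real.pi / 2) {n : ℕ} (hn : 1 ≤ n) {α k : ℝ}
    (hα0 : 0 < α) (hα1 : α < Real.pi / 2) (hk : 0 ≤ k) (hkc : k ≤ Real.cos α * Real.cos θ)
    (hks : k < Real.sin α * Real.sin θ) {C : Finset (EuclideanSpace ℝ (Fin n))}
    {e : EuclideanSpace ℝ (Fin n)} (hC : IsCode n θ C) (hCe : InCap α e C) :
    Ineq θ α k C.card (3 * (n + 1)) (A n θ) (n - 1) := by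
  have hsα := sin_pos hα0 hα1
  have hsθ := sin_pos h0 h1
  have hcα := cos_pos' hα0 hα1
  have hcθ := cos_pos' h0 h1
  have hcα1 := cos_lt hα0 hα1
  have hcθ1 := cos_lt h0 h1
  have e1 := Real.sin_sq_add_cos_sq α
  have e2 := Real.sin_sq_add_cos_sq θ
  have hk2 : (k / Real.sin α) ^ 2 < Real.sin θ ^ 2 := by
    apply pow_lt_pow_left₀ _ (by positivity) (by norm_num)
    rw [div_lt_iff₀ hsα]; linarith
  have e3 : k ^ 2 / (1 - Real.cos α ^ 2) = (k / Real.sin α) ^ 2 := by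
    rw [div_pow, ← e1]; congr 1; ring
  have h := cap_ineq (n := n) (by omega) h0 h1 hcα.le hcα1 hk hkc (by rw [e3]; linarith) hCe.1 hC
    hCe.2
  unfold Ineq
  have e4 : 1 - (Real.cos θ ^ 2 + k ^ 2 / (1 - Real.cos α ^ 2)) =
      Real.sin θ ^ 2 - (k / Real.sin α) ^ 2 := by rw [e3]; linarith
  rw [e4] at h
  have hq : (Real.cos α * Real.cos θ - k) ^ 2 ≤ 1 := by
    have h3 : Real.cos α * Real.cos θ ≤ 1 := by nlinarith
    have h4 : 0 ≤ Real.cos α * Real.cos θ - k := by linarith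
    nlinarith
  rw [sqrt_pow_eq' _ (by linarith), sqrt_pow_eq' _ (by linarith)] at h
  exact h

lemma ca_eq {θ α φ : ℝ} (hα0 : 0 < α) (hα1 : α < Real.pi / 2)
    (hφ : Real.cos θ = Real.cos α ^ 2 + Real.sin α ^ 2 * Real.cos φ) (hφ1 : Real.cos φ < 1) :
    ca θ φ = Real.cos α := by
  have e1 := Real.sin_sq_add_cos_sq α
  unfold ca
  have : (Real.cos θ - Real.cos φ) / (1 - Real.cos φ) = Real.cos α ^ 2 := by
    have e2 : (1 - Real.cos φ) ≠ 0 := by linarith
    rw [div_eq_iff e2, hφ]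
    linear_combination Real.cos φ * e1
  rw [this, Real.sqrt_sq (cos_pos' hα0 hα1).le]

/-- the inequality between the codes of two angles -/
theorem angle {θ : ℝ} (h0 : 0 < θ) (h1 : θ < Real.pi / 2) {n : ℕ} {K : ℝ}
    (hK : 3 * ((n : ℝ) + 2) * sphMax (n + 1) θ ≤ K * sphMax n θ) (hn : 1 ≤ n) {α φ k : ℝ}
    (hα0 : 0 < α) (hα1 : α < Real.pi / 2)
    (hφ : Real.cos θ = Real.cos α ^ 2 + Real.sin α ^ 2 * Real.cos φ) (hk : 0 ≤ k)
    (hkc : k ≤ Real.cos α * Real.cos θ) (hks : k < Real.sin α * Real.sin θ) :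
    Ineq θ α k (A n φ) K (A n θ) n := by
  have hsα := sin_pos hα0 hα1
  have hsθ := sin_pos h0 h1
  have hcα := cos_pos' hα0 hα1
  have hcθ := cos_pos' h0 h1
  have hcα1 := cos_lt hα0 hα1
  have hcθ1 := cos_lt h0 h1
  have e1 := Real.sin_sq_add_cos_sq α
  have e2 := Real.sin_sq_add_cos_sq θ
  have hφ1 : Real.cos φ < 1 := by
    have h2 : Real.sin α ^ 2 * Real.cos φ < Real.sin α ^ 2 * 1 := by linarith
    exact lt_of_mul_lt_mul_left h2 (sq_nonneg _)
  have hφθ : Real.cos φ < Real.cos θ := by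
    have h2 : 0 < Real.cos α ^ 2 * (1 - Real.cos φ) := mul_pos (by positivity) (by linarith)
    have h3 : Real.sin α ^ 2 = 1 - Real.cos α ^ 2 := by linarith
    rw [hφ, h3]
    linarith
  have hca := ca_eq hα0 hα1 hφ hφ1
  have e3 : 1 - Real.cos θ = Real.sin α ^ 2 * (1 - Real.cos φ) := by linarith
  have hb : 0 < 1 - Real.cos φ := by linarith
  have e4 : k ^ 2 * (1 - Real.cos φ) / (1 - Real.cos θ) = (k / Real.sin α) ^ 2 := by
    rw [e3, div_pow]
    field_simp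
  have hk2 : (k / Real.sin α) ^ 2 < Real.sin θ ^ 2 := by
    apply pow_lt_pow_left₀ _ (by positivity) (by norm_num)
    rw [div_lt_iff₀ hsα]; linarith
  have h := angle_succ (n := n) (by omega) h0 h1 hφθ hk (by rw [hca]; exact hkc) (by
    have h5 := hk2
    rw [← e4, div_lt_iff₀ (by linarith)] at h5
    linarith)
  rw [hca, e4] at h
  have hq : (Real.cos α * Real.cos θ - k) ^ 2 ≤ 1 := by
    have h3 : Real.cos α * Real.cos θ ≤ 1 := by nlinarith
    have h4 : 0 ≤ Real.cos α * Real.cos θ - k := by linarith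
    nlinarith
  rw [sqrt_pow_eq' _ (by linarith), sqrt_pow_eq' _ (by linarith)] at h
  unfold Ineq
  refine h.trans (mul_le_mul_of_nonneg_right hK ?_)
  have h6 : 0 ≤ 1 - (Real.cos α * Real.cos θ - k) ^ 2 := by linarith
  have h7 : 0 ≤ Real.sin θ ^ 2 - (k / Real.sin α) ^ 2 := by linarith
  positivity

theorem result :
    -- kissing numbers and the codes of a larger angle `φ`, in every dimension `n ≥ 4`
    (∀ n : ℕ, 4 ≤ n → ∀ α φ k : ℝ, 0 < α → α < Real.pi / 2 →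
      1 / 2 = Real.cos α ^ 2 + Real.sin α ^ 2 * Real.cos φ → 0 ≤ k →
      k ≤ Real.cos α * Real.cos (Real.pi / 3) → k < Real.sin α * Real.sin (Real.pi / 3) →
      Ineq (Real.pi / 3) α k (A n φ) (72 * n) (A n (Real.pi / 3)) n) ∧
    -- the codes of two angles `θ < φ`
    (∀ θ : ℝ, 0 < θ → θ < Real.pi / 2 → ∃ K : ℝ, 0 < K ∧ ∀ n : ℕ, 4 ≤ n → ∀ α φ k : ℝ,
      0 < α → α < Real.pi / 2 →
      Real.cos θ = Real.cos α ^ 2 + Real.sin α ^ 2 * Real.cos φ → 0 ≤ k →
      k ≤ Real.cos α * Real.cos θ → k < Real.sin α * Real.sin θ →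
      Ineq θ α k (A n φ) (K * n) (A n θ) n) ∧
    -- the codes of angle `θ` and those of them which lie in a cap of radius `α`
    (∀ θ : ℝ, 0 < θ → θ < Real.pi / 2 → ∀ n : ℕ, 1 ≤ n → ∀ α k : ℝ, 0 < α → α < Real.pi / 2 →
      0 ≤ k → k ≤ Real.cos α * Real.cos θ → k < Real.sin α * Real.sin θ →
      ∀ (C : Finset (EuclideanSpace ℝ (Fin n))) (e : EuclideanSpace ℝ (Fin n)), IsCode n θ C →
      InCap α e C → Ineq θ α k C.card (3 * (n + 1)) (A n θ) (n - 1)) ∧
    -- when Wyner's exponent is the truth: kissing numbers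
    Equivalences (Real.pi / 3) (1 / 2 * Real.logb 2 (4 / 3))
      (fun φ => 1 / 2 * Real.logb 2 (1 + 1 / (6 * (1 - Real.cos φ)))) ∧
    -- when Wyner's exponent is the truth: spherical codes of every acute angle
    (∀ θ : ℝ, 0 < θ → θ < Real.pi / 2 → Equivalences θ (-Real.logb 2 (Real.sin θ))
      (fun φ => 1 / 2 * Real.logb 2
        (1 + Real.cos θ ^ 2 / ((1 - Real.cos φ) * (1 + Real.cos θ))))) := by
  have hpi := Real.pi_pos
  refine ⟨fun n hn α φ k hα0 hα1 hφ hk hkc hks => ?_, fun θ h0 h1 => ?_,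
    fun θ h0 h1 n hn α k hα0 hα1 hk hkc hks C e hC hCe =>
      cap h0 h1 hn hα0 hα1 hk hkc hks hC hCe, ?_, fun θ h0 h1 => equivalences h0 h1⟩
  · refine angle (by positivity) (by linarith) ?_ (by omega) hα0 hα1
      (by rw [Real.cos_pi_div_three]; exact hφ) hk hkc hks
    have hr : (sphMax (n + 1) (Real.pi / 3) : ℝ) ≤ 16 * sphMax n (Real.pi / 3) := by
      exact_mod_cast kissing_succ_le hn
    calc 3 * ((n : ℝ) + 2) * sphMax (n + 1) (Real.pi / 3)
        ≤ 3 * (3 / 2 * n) * (16 * sphMax n (Real.pi / 3)) :=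
          mul_le_mul (mul_le_mul_of_nonneg_left (add_two_le hn) (by norm_num)) hr
            (by positivity) (by positivity)
      _ = _ := by ring
  · obtain ⟨K, hK, hr⟩ := exists_ratio h0 h1
    refine ⟨9 / 2 * K, by positivity, fun n hn α φ k hα0 hα1 hφ hk hkc hks => ?_⟩
    refine angle h0 h1 ?_ (by omega) hα0 hα1 hφ hk hkc hks
    calc 3 * ((n : ℝ) + 2) * sphMax (n + 1) θ ≤ 3 * (3 / 2 * n) * (K * sphMax n θ) :=
          mul_le_mul (mul_le_mul_of_nonneg_left (add_two_le hn) (by norm_num)) (hr n hn)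
            (by positivity) (by positivity)
      _ = _ := by ring
  · have h := equivalences (θ := Real.pi / 3) (by positivity) (by linarith)
    rw [kiss_w, kiss_b] at h
    exact h

end Pool.Agent.Results.MP_b5f63d_co.AngleTransfer
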