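import Pool.Agent.H85D.Lim

/-!
# MP_b5f63d_co: trading dimension for angle in spherical codes and kissing configurations

Spherical codes of a large angle give spherical codes of a smaller angle in a space of smaller
dimension. Consequently, for the upper and for the lower exponential growth rate `R` of the largest
spherical codes, the quantity `(1 - 4 ^ (-R θ)) / (1 + cos θ)` does not increase with the angle; in
particular `R` is strictly decreasing, and the exponents `c_+`, `c_-` of the kissing numbers are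
bounded below by the exponents of the larger angles and above by those of the smaller angles.
-/

open Filter
open scoped InnerProductSpace

namespace Pool.Agent.Results.MP_b5f63d_co.DimensionTradeOff

/-- `C` is a spherical code of `ℝⁿ` of angle `θ`: a finite set of unit vectors such that any two
distinct ones have inner product at most `cos θ`. -/
def IsCode (n : ℕ) (θ : ℝ) (C : Finset (EuclideanSpace ℝ (Fin n))) : Prop :=
  (∀ x ∈ C, ‖x‖ = 1) ∧ ∀ x ∈ C, ∀ y ∈ C, x ≠ y → ⟪x, y⟫_ℝ ≤ Real.cos θ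

/-- `A n θ`: the largest number of points of a spherical code of `ℝⁿ` of angle `θ`. The kissing
number is `τ(n) = A n (π / 3)`. -/
noncomputable def A (n : ℕ) (θ : ℝ) : ℕ :=
  sSup {k | ∃ C : Finset (EuclideanSpace ℝ (Fin n)), IsCode n θ C ∧ C.card = k}

/-- the upper exponent of the spherical codes of angle `θ` (`c_+` for `θ = π / 3`) -/
noncomputable def upper (θ : ℝ) : ℝ := limsup (fun n : ℕ => Real.logb 2 (A n θ) / n) atTop

/-- the lower exponent of the spherical codes of angle `θ` (`c_-` for `θ = π / 3`) -/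
noncomputable def lower (θ : ℝ) : ℝ := liminf (fun n : ℕ => Real.logb 2 (A n θ) / n) atTop

open Pool.Agent.H818R2 Pool.Agent.H85G Pool.Agent.H85T Pool.Agent.H85D

/-- the inequality between two dimensions and two angles -/
theorem finite {θ φ : ℝ} (h0 : 0 < θ) (h1 : θ < φ) (h2 : φ < Real.pi / 2) {k m : ℕ} (hk : 1 ≤ k)
    (hm : 1 ≤ m) {d : ℝ} (hd : d = (Real.cos θ - Real.cos φ) / (1 + Real.cos θ)) :
    (A (k + m) φ : ℝ) ≤ 4 * ((k : ℝ) + m + 1) ^ 2 *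
      ((k : ℝ) / (k + m) / d) ^ ((k : ℝ) / 2) * ((m : ℝ) / (k + m) / (1 - d)) ^ ((m : ℝ) / 2) *
      A m θ := by
  obtain ⟨hd0, hd1, hθ, -⟩ := dd_facts h0 h1 h2
  have hφ : 0 < Real.cos φ := Real.cos_pos_of_mem_Ioo ⟨by linarith [Real.pi_pos], h2⟩
  have hdd : dd θ φ = d := hd.symm
  rw [hdd] at hd0 hd1 hθ
  have h := drop_ineq (k := k) (m := m) (by omega) (by omega) (sin_half h0 (h1.trans h2))
    (sin_half (h0.trans h1) h2) hd0 hd1 hφ.le hθ
  have hk0 : (0 : ℝ) < k := by exact_mod_cast hk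
  have hm0 : (0 : ℝ) < m := by exact_mod_cast hm
  have hd2 : 0 < 1 - d := by linarith
  rw [sqrt_pow_eq hd0.le, sqrt_pow_eq hd2.le, ← le_div_iff₀ (by positivity)] at h
  refine h.trans ?_
  rw [Real.div_rpow (by positivity) hd0.le, Real.div_rpow (by positivity) hd2.le]
  have e1 : 4 * ((k : ℝ) + m) * (((k : ℝ) + m) / 2 + 1) ≤ 4 * ((k : ℝ) + m + 1) ^ 2 := by nlinarith
  have hA : (0 : ℝ) ≤ sphMax m θ := Nat.cast_nonneg _
  set X : ℝ := ((k : ℝ) / (k + m)) ^ ((k : ℝ) / 2) * ((m : ℝ) / (k + m)) ^ ((m : ℝ) / 2) with hX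
  have hX0 : 0 ≤ X := by positivity
  calc 4 * ((k : ℝ) + m) * (((k : ℝ) + m) / 2 + 1) * X * sphMax m θ /
        (d ^ ((k : ℝ) / 2) * (1 - d) ^ ((m : ℝ) / 2))
      ≤ 4 * ((k : ℝ) + m + 1) ^ 2 * X * sphMax m θ /
        (d ^ ((k : ℝ) / 2) * (1 - d) ^ ((m : ℝ) / 2)) := by
        apply div_le_div_of_nonneg_right _ (by positivity)
        exact mul_le_mul_of_nonneg_right (mul_le_mul_of_nonneg_right e1 hX0) hA
    _ = 4 * ((k : ℝ) + m + 1) ^ 2 * (((k : ℝ) / (k + m)) ^ ((k : ℝ) / 2) / d ^ ((k : ℝ) / 2)) *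
        (((m : ℝ) / (k + m)) ^ ((m : ℝ) / 2) / (1 - d) ^ ((m : ℝ) / 2)) * sphMax m θ := by
        rw [hX]; field_simp

lemma lower_pos {φ : ℝ} (h0 : 0 < φ) (h2 : φ < Real.pi / 2) : 0 < lower φ := by
  have h3 : 0 < -Real.logb 2 (Real.sin φ) := by
    have := Real.logb_neg (b := 2) (by norm_num) (sin_pos h0 h2) (sin_lt_one h0 h2)
    linarith
  exact h3.trans_le (le_liminf h0 h2)

lemma upper_pos {φ : ℝ} (h0 : 0 < φ) (h2 : φ < Real.pi / 2) : 0 < upper φ :=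
  (lower_pos h0 h2).trans_le (liminf_le_limsup' h0 h2)

lemma kiss_above {Rφ c b : ℝ} (hb : 0 < b)
    (h : (1 - (4 : ℝ) ^ (-Rφ)) * (1 + 1 / 2) ≤ (1 - (4 : ℝ) ^ (-c)) * (1 + b)) :
    (4 : ℝ) ^ (-c) ≤ 1 - 3 * (1 - (4 : ℝ) ^ (-Rφ)) / (2 * (1 + b)) := by
  have h1 : 3 * (1 - (4 : ℝ) ^ (-Rφ)) / (2 * (1 + b)) ≤ 1 - (4 : ℝ) ^ (-c) := by
    rw [div_le_iff₀ (by positivity)]
    linarith
  linarith

lemma kiss_below {Rψ c b : ℝ} (hb : 0 < b)
    (h : (1 - (4 : ℝ) ^ (-c)) * (1 + b) ≤ (1 - (4 : ℝ) ^ (-Rψ)) * (1 + 1 / 2)) :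
    1 - 3 * (1 - (4 : ℝ) ^ (-Rψ)) / (2 * (1 + b)) ≤ (4 : ℝ) ^ (-c) := by
  have h1 : 1 - (4 : ℝ) ^ (-c) ≤ 3 * (1 - (4 : ℝ) ^ (-Rψ)) / (2 * (1 + b)) := by
    rw [le_div_iff₀ (by positivity)]
    linarith
  linarith

theorem result :
    -- all dimensions: with `n = k + m` and `d = (cos θ - cos φ) / (1 + cos θ)`,
    -- `A n φ ≤ 4 (n + 1)² (k / (n d)) ^ (k / 2) (m / (n (1 - d))) ^ (m / 2) A m θ`
    (∀ θ φ : ℝ, 0 < θ → θ < φ → φ < Real.pi / 2 → ∀ k m : ℕ, 1 ≤ k → 1 ≤ m → ∀ d : ℝ,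
      d = (Real.cos θ - Real.cos φ) / (1 + Real.cos θ) →
      (A (k + m) φ : ℝ) ≤ 4 * ((k : ℝ) + m + 1) ^ 2 *
        ((k : ℝ) / (k + m) / d) ^ ((k : ℝ) / 2) * ((m : ℝ) / (k + m) / (1 - d)) ^ ((m : ℝ) / 2) *
        A m θ) ∧
    -- the exponents of two angles
    (∀ θ φ : ℝ, 0 < θ → θ < φ → φ < Real.pi / 2 →
      (1 - (4 : ℝ) ^ (-upper φ)) / (1 + Real.cos φ) ≤
        (1 - (4 : ℝ) ^ (-upper θ)) / (1 + Real.cos θ) ∧
      (1 - (4 : ℝ) ^ (-lower φ)) / (1 + Real.cos φ) ≤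
        (1 - (4 : ℝ) ^ (-lower θ)) / (1 + Real.cos θ) ∧
      upper φ < upper θ ∧ lower φ < lower θ) ∧
    -- kissing numbers and larger angles
    (∀ φ : ℝ, Real.pi / 3 < φ → φ < Real.pi / 2 →
      (4 : ℝ) ^ (-upper (Real.pi / 3)) ≤
        1 - 3 * (1 - (4 : ℝ) ^ (-upper φ)) / (2 * (1 + Real.cos φ)) ∧
      (4 : ℝ) ^ (-lower (Real.pi / 3)) ≤
        1 - 3 * (1 - (4 : ℝ) ^ (-lower φ)) / (2 * (1 + Real.cos φ))) ∧
    -- kissing numbers and smaller angles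
    (∀ ψ : ℝ, 0 < ψ → ψ < Real.pi / 3 →
      1 - 3 * (1 - (4 : ℝ) ^ (-upper ψ)) / (2 * (1 + Real.cos ψ)) ≤
        (4 : ℝ) ^ (-upper (Real.pi / 3)) ∧
      1 - 3 * (1 - (4 : ℝ) ^ (-lower ψ)) / (2 * (1 + Real.cos ψ)) ≤
        (4 : ℝ) ^ (-lower (Real.pi / 3))) := by
  have hpi := Real.pi_pos
  refine ⟨fun θ φ h0 h1 h2 k m hk hm d hd => finite h0 h1 h2 hk hm hd,
    fun θ φ h0 h1 h2 => ?_, fun φ h1 h2 => ?_, fun ψ h0 h1 => ?_⟩
  · have hu : (1 - (4 : ℝ) ^ (-upper φ)) * (1 + Real.cos θ) ≤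
        (1 - (4 : ℝ) ^ (-upper θ)) * (1 + Real.cos φ) := upper_ineq h0 h1 h2
    have hl : (1 - (4 : ℝ) ^ (-lower φ)) * (1 + Real.cos θ) ≤
        (1 - (4 : ℝ) ^ (-lower θ)) * (1 + Real.cos φ) := lower_ineq h0 h1 h2
    have hcφ := cos_pos' (h0.trans h1) h2
    have hcθ := cos_pos' h0 (h1.trans h2)
    refine ⟨?_, ?_, strict_of h0 h1 h2 (upper_pos (h0.trans h1) h2) hu,
      strict_of h0 h1 h2 (lower_pos (h0.trans h1) h2) hl⟩
    · rw [div_le_div_iff₀ (by positivity) (by positivity)]; exact hu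
    · rw [div_le_div_iff₀ (by positivity) (by positivity)]; exact hl
  · have h0 : 0 < Real.pi / 3 := by positivity
    have hcφ := cos_pos' (h0.trans h1) h2
    have hu := upper_ineq h0 h1 h2
    have hl := lower_ineq h0 h1 h2
    rw [Real.cos_pi_div_three] at hu hl
    exact ⟨kiss_above hcφ hu, kiss_above hcφ hl⟩
  · have h2 : Real.pi / 3 < Real.pi / 2 := by linarith
    have hcψ := cos_pos' h0 (h1.trans h2)
    have hu := upper_ineq h0 h1 h2
    have hl := lower_ineq h0 h1 h2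
    rw [Real.cos_pi_div_three] at hu hl
    exact ⟨kiss_below hcψ hu, kiss_below hcψ hl⟩

end Pool.Agent.Results.MP_b5f63d_co.DimensionTradeOff
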