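import Pool.Agent.H85G.Final

/-!
# MP_b5f63d_co: Wyner's bound and the Gaussian channel

The Chabauty-Shannon-Wyner bound `sin θ ^ (-n)` is the true exponential order of the largest
spherical codes of angle `θ` if and only if the spherical codes of angle `θ` are reliable codes for
the Gaussian channel at every noise level below `tan θ`; for kissing configurations (`θ = π / 3`)
this concerns the equalities `c_+ = (1/2) log_2 (4/3)` and `c_- = (1/2) log_2 (4/3)`.
-/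

open MeasureTheory Filter
open scoped InnerProductSpace

namespace Pool.Agent.Results.MP_b5f63d_co.GaussianChannel

/-- `C` is a spherical code of `ℝⁿ` of angle `θ`: a finite set of unit vectors such that any two
distinct ones have inner product at most `cos θ`. -/
def IsCode (n : ℕ) (θ : ℝ) (C : Finset (EuclideanSpace ℝ (Fin n))) : Prop :=
  (∀ x ∈ C, ‖x‖ = 1) ∧ ∀ x ∈ C, ∀ y ∈ C, x ≠ y → ⟪x, y⟫_ℝ ≤ Real.cos θ

/-- `A n θ`: the largest number of points of a spherical code of `ℝⁿ` of angle `θ`. The kissing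
number is `τ(n) = A n (π / 3)`. -/
noncomputable def A (n : ℕ) (θ : ℝ) : ℕ :=
  sSup {k | ∃ C : Finset (EuclideanSpace ℝ (Fin n)), IsCode n θ C ∧ C.card = k}

/-- The density of the Gaussian distribution on `ℝⁿ` with mean `0` and covariance matrix
`(σ² / n) I` (total power `σ²`; the codewords have power `1`). -/
noncomputable def density (n : ℕ) (σ : ℝ) (z : EuclideanSpace ℝ (Fin n)) : ℝ :=
  (2 * Real.pi * (σ ^ 2 / n)) ^ (-(n : ℝ) / 2) * Real.exp (-‖z‖ ^ 2 / (2 * (σ ^ 2 / n)))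

/-- The distribution of the noise. -/
noncomputable def noise (n : ℕ) (σ : ℝ) : Measure (EuclideanSpace ℝ (Fin n)) :=
  volume.withDensity fun z => ENNReal.ofReal (density n σ z)

/-- The average probability of error of the decoder `D` for the code `C`: a uniformly random
`x ∈ C` is sent, `x + z` is received where `z` is the noise, and `D (x + z) ≠ x`. -/
noncomputable def err (n : ℕ) (σ : ℝ) (C : Finset (EuclideanSpace ℝ (Fin n)))
    (D : EuclideanSpace ℝ (Fin n) → EuclideanSpace ℝ (Fin n)) : ℝ :=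
  (∑ x ∈ C, (noise n σ).real {z | D (x + z) ≠ x}) / C.card

/-- Every nonempty spherical code of `ℝⁿ` of angle `θ` has a decoder whose probability of error is
at most `p` at the noise level `σ`. -/
def AllReliable (n : ℕ) (θ σ p : ℝ) : Prop :=
  ∀ C : Finset (EuclideanSpace ℝ (Fin n)), IsCode n θ C → C.Nonempty →
    ∃ D : EuclideanSpace ℝ (Fin n) → EuclideanSpace ℝ (Fin n), Measurable D ∧ err n σ C D ≤ p

/-- Some largest spherical code of `ℝⁿ` of angle `θ` has a decoder whose probability of error is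
at most `p` at the noise level `σ`. -/
def LargestReliable (n : ℕ) (θ σ p : ℝ) : Prop :=
  ∃ C : Finset (EuclideanSpace ℝ (Fin n)), IsCode n θ C ∧ C.card = A n θ ∧
    ∃ D : EuclideanSpace ℝ (Fin n) → EuclideanSpace ℝ (Fin n), Measurable D ∧ err n σ C D ≤ p

/-- The theorem for the angle `θ` with noise levels below `t` and Wyner's exponent `w`. -/
def Statement (θ t w : ℝ) : Prop :=
  -- in every large dimension: better codes, or all codes are exponentially reliable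
  (∀ σ : ℝ, 0 < σ → σ < t → ∃ c : ℝ, 0 < c ∧ ∀ᶠ n : ℕ in atTop,
    (2 : ℝ) ^ ((w + c) * n) ≤ A n θ ∨ AllReliable n θ σ ((2 : ℝ) ^ (-c * n))) ∧
  -- the upper exponent
  (limsup (fun n : ℕ => Real.logb 2 (A n θ) / n) atTop = w ↔
    ∀ σ : ℝ, 0 < σ → σ < t → ∃ c : ℝ, 0 < c ∧
      ∀ᶠ n : ℕ in atTop, AllReliable n θ σ ((2 : ℝ) ^ (-c * n))) ∧
  (limsup (fun n : ℕ => Real.logb 2 (A n θ) / n) atTop = w ↔
    ∀ σ : ℝ, 0 < σ → σ < t → ∃ η : ℝ, η < 1 ∧
      ∀ᶠ n : ℕ in atTop, LargestReliable n θ σ η) ∧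
  -- the lower exponent
  (liminf (fun n : ℕ => Real.logb 2 (A n θ) / n) atTop = w ↔
    ∀ σ : ℝ, 0 < σ → σ < t → ∃ c : ℝ, 0 < c ∧
      ∃ᶠ n : ℕ in atTop, AllReliable n θ σ ((2 : ℝ) ^ (-c * n))) ∧
  (liminf (fun n : ℕ => Real.logb 2 (A n θ) / n) atTop = w ↔
    ∀ σ : ℝ, 0 < σ → σ < t → ∃ η : ℝ, η < 1 ∧
      ∃ᶠ n : ℕ in atTop, LargestReliable n θ σ η)

lemma noise_eq (n : ℕ) (σ : ℝ) : noise n σ = Pool.Agent.H85G.noise n (σ / √n) := by
  unfold noise Pool.Agent.H85G.noise density Pool.Agent.H85G.gauss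
  have : (σ / √(n : ℝ)) ^ 2 = σ ^ 2 / n := by rw [div_pow, Real.sq_sqrt (Nat.cast_nonneg n)]
  rw [this]

lemma err_eq (n : ℕ) (σ : ℝ) : err n σ = Pool.Agent.H85G.avgErr n σ := by
  funext C D
  unfold err Pool.Agent.H85G.avgErr
  rw [noise_eq]

lemma all_iff (n : ℕ) (θ σ p : ℝ) : AllReliable n θ σ p ↔ Pool.Agent.H85G.Rel n θ σ p := by
  unfold AllReliable Pool.Agent.H85G.Rel
  rw [err_eq]
  rfl

lemma largest_iff (n : ℕ) (θ σ p : ℝ) :
    LargestReliable n θ σ p ↔ Pool.Agent.H85G.OptRel n θ σ p := by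
  unfold LargestReliable Pool.Agent.H85G.OptRel
  rw [err_eq]
  rfl

lemma rate_eq (θ : ℝ) : (fun n : ℕ => Real.logb 2 (A n θ) / n) =
    Pool.Agent.H818R2.codeRate θ := rfl

theorem main {θ : ℝ} (h0 : 0 < θ) (h1 : θ < Real.pi / 2) :
    Statement θ (Real.tan θ) (-Real.logb 2 (Real.sin θ)) := by
  unfold Statement
  simp only [rate_eq, all_iff, largest_iff]
  refine ⟨fun σ hσ hσθ => ?_, ⟨fun h σ hσ hσθ => ?_, fun h => ?_⟩,
    ⟨fun h σ hσ hσθ => ?_, fun h => ?_⟩, ⟨fun h σ hσ hσθ => ?_, fun h => ?_⟩,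
    ⟨fun h σ hσ hσθ => ?_, fun h => ?_⟩⟩
  · obtain ⟨c, hc, h⟩ := Pool.Agent.H85G.dichotomy h0 h1 hσ hσθ
    refine ⟨c, hc, ?_⟩
    filter_upwards [h] with n hn
    rcases hn with hn | hn
    · left
      rw [← Pool.Agent.H85G.logb_inv_pow (Pool.Agent.H85G.sin_pos h0 h1)]
      exact hn
    · exact Or.inr hn
  · exact Pool.Agent.H85G.limsup_rel h0 h1 h hσ hσθ
  · exact Pool.Agent.H85G.limsup_of_opt h0 h1 fun σ hσ hσθ =>
      Pool.Agent.H85G.opt_of_rel_ev h0 h1 (h σ hσ hσθ)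
  · exact Pool.Agent.H85G.opt_of_rel_ev h0 h1 (Pool.Agent.H85G.limsup_rel h0 h1 h hσ hσθ)
  · exact Pool.Agent.H85G.limsup_of_opt h0 h1 h
  · exact Pool.Agent.H85G.liminf_rel h0 h1 h hσ hσθ
  · exact Pool.Agent.H85G.liminf_of_opt h0 h1 fun σ hσ hσθ =>
      Pool.Agent.H85G.opt_of_rel_fr h0 h1 (h σ hσ hσθ)
  · exact Pool.Agent.H85G.opt_of_rel_fr h0 h1 (Pool.Agent.H85G.liminf_rel h0 h1 h hσ hσθ)
  · exact Pool.Agent.H85G.liminf_of_opt h0 h1 h

lemma kiss_w : -Real.logb 2 (Real.sin (Real.pi / 3)) = 1 / 2 * Real.logb 2 (4 / 3) := by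
  rw [Real.sin_pi_div_three]
  have h : (4 : ℝ) / 3 = ((√3 / 2) ^ 2)⁻¹ := by
    rw [div_pow, Real.sq_sqrt (by norm_num)]; norm_num
  rw [h, Real.logb_inv, Real.logb_pow]
  push_cast
  ring

theorem result :
    Statement (Real.pi / 3) (√3) (1 / 2 * Real.logb 2 (4 / 3)) ∧
    (∀ θ : ℝ, 0 < θ → θ < Real.pi / 2 →
      Statement θ (Real.tan θ) (-Real.logb 2 (Real.sin θ))) := by
  refine ⟨?_, fun θ h0 h1 => main h0 h1⟩
  rw [← Real.tan_pi_div_three, ← kiss_w]
  exact main (by positivity) (by linarith [Real.pi_pos])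

end Pool.Agent.Results.MP_b5f63d_co.GaussianChannel
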