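import Pool.Agent.H2xRK.Low
import Pool.Agent.H85G.Final

/-!
# MP_b5f63d_co: rounds of conditioning and Wyner's bound for kissing numbers and spherical codes

A pseudo-code of level `(a, b, t)` for the angle `θ` on a finite set `X` of unit vectors of `ℝⁿ` is
a real function `y` on the subsets of `X` which behaves like `y(S) = Prob(S ⊆ C)` for a random
spherical code `C ⊆ X` of angle `θ`, as far as this can be seen by semidefinite constraints of
degree `t` after `a + b` rounds of conditioning: `y(∅) = 1`, `y(S) = 0` if `S` has two points at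
an angle less than `θ`, the pseudo-probabilities `Prob(D ⊆ C, F ∩ C = ∅)` are nonnegative for
`|D| ≤ a + 2t`, `|F| ≤ b + 2t`, and for `|D| ≤ a`, `|F| ≤ b` the moment matrix of the polynomials
of degree `≤ t` in the variables `[x ∈ C]`, conditioned on `D ⊆ C, F ∩ C = ∅`, is positive
semidefinite. (These contain all constraints of the `k`-point bounds, `k = min(a, b) + 2`, and of
the levels `(s, t)`, `s = min(a, b)`, of the Lasserre hierarchy of `LasserreKissing`.) The bound of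
level `(a, b, t)` is the best upper bound for the pseudo-expectation of `|C|`.

Let `w = -log₂ sin θ` be the exponent of the classical (Chabauty-Shannon-Wyner) lower bound
`2^(wn) = (sin θ)^(-n)`, `w = (1/2) log₂ (4/3) = 0.2075...` for the kissing number `A(n, π/3)`.

* The bounds are valid, and exact as soon as `a + 1 ≥ A(n, θ)`, even for `b = 0`, `t = 1`.
* With `2^(κn)` included points, `κ < w`, any number of excluded points and degree `t ≤ cn / log n`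
  the bound stays `≥ 2^((w + γ/t) n)`, `γ = γ(κ) > 0`. The trade-off between `κ` and `γ` is explicit;
  for kissing numbers `κ = γ = 0.03` is possible.
* So the bounds with `t = o(n / log n)` see that Wyner's bound is sharp (if it is) exactly when
  slightly more than `2^(wn)` points are included: `c_+ = w` iff for all `ε > 0` the level
  `(2^((w+ε)n), 0, 1)` is `≤ 2^((w+ε)n)` for all large `n`. The same for `c_-`.
-/

open Filter Topology
open scoped InnerProductSpace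

namespace Pool.Agent.Results.MP_b5f63d_co.RoundsKissing

/-- `C` is a spherical code of `ℝⁿ` of angle `θ`: a finite set of unit vectors such that any two
distinct ones have inner product at most `cos θ`. -/
def IsCode (n : ℕ) (θ : ℝ) (C : Finset (EuclideanSpace ℝ (Fin n))) : Prop :=
  (∀ x ∈ C, ‖x‖ = 1) ∧ ∀ x ∈ C, ∀ y ∈ C, x ≠ y → ⟪x, y⟫_ℝ ≤ Real.cos θ

/-- `A n θ`: the largest number of points of a spherical code of `ℝⁿ` of angle `θ`. The kissing
number is `τ(n) = A n (π / 3)`. -/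
noncomputable def A (n : ℕ) (θ : ℝ) : ℕ :=
  sSup {k | ∃ C : Finset (EuclideanSpace ℝ (Fin n)), IsCode n θ C ∧ C.card = k}

/-- The pseudo-probability of `D ∪ S ⊆ C, F ∩ C = ∅`:
`∑_{G ⊆ F} (-1)^|G| y(D ∪ G ∪ S)`. -/
def pseudoProb {V : Type} [DecidableEq V] (y : Finset V → ℝ) (D F S : Finset V) : ℝ :=
  ∑ G ∈ F.powerset, (-1) ^ G.card * y (D ∪ G ∪ S)

open Classical in
/-- Pseudo-codes of level `(a, b, t)` for the angle `θ` on the finite set `X`: `D` is the set of the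
included points, `F` is the set of the excluded points. -/
structure IsPseudoCode (n a b t : ℕ) (θ : ℝ) (X : Finset (EuclideanSpace ℝ (Fin n)))
    (y : Finset X → ℝ) : Prop where
  one : y ∅ = 1
  sep : ∀ S : Finset X, ∀ u ∈ S, ∀ v ∈ S, u ≠ v →
    Real.cos θ < inner ℝ (u : EuclideanSpace ℝ (Fin n)) v → y S = 0
  nonneg : ∀ D F : Finset X, D.card ≤ a + 2 * t → F.card ≤ b + 2 * t → 0 ≤ pseudoProb y D F ∅
  psd : ∀ D F : Finset X, D.card ≤ a → F.card ≤ b → ∀ f : Finset X → ℝ,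
    (∀ S, t < S.card → f S = 0) → 0 ≤ ∑ S, ∑ T, f S * f T * pseudoProb y D F (S ∪ T)

/-- `B` is an upper bound for `∑_x y({x})` for all pseudo-codes `y` of level `(a, b, t)` on finite
sets of unit vectors. -/
def IsBound (n a b t : ℕ) (θ B : ℝ) : Prop :=
  ∀ X : Finset (EuclideanSpace ℝ (Fin n)), (∀ x ∈ X, ‖x‖ = 1) →
    ∀ y : Finset X → ℝ, IsPseudoCode n a b t θ X y → ∑ x, y {x} ≤ B

/-- The bound of level `(a, b, t)` for spherical codes of angle `θ` in `ℝⁿ`. -/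
noncomputable def bound (n a b t : ℕ) (θ : ℝ) : ℝ := sInf {B : ℝ | IsBound n a b t θ B}

/-- Wyner's exponent: `2 ^ (wyner θ * n) = (sin θ)^(-n)`. -/
noncomputable def wyner (θ : ℝ) : ℝ := -Real.logb 2 (Real.sin θ)

/-- The exponent `w + (1/2) log₂ (1 - q²) - q / ((1 + q) ln 2)`, `q = (cos θ)^m`. -/
noncomputable def margin (θ : ℝ) (m : ℕ) : ℝ :=
  wyner θ + 1 / 2 * Real.logb 2 (1 - (Real.cos θ ^ m) ^ 2) -
    Real.cos θ ^ m / (1 + Real.cos θ ^ m) / Real.log 2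

open Pool.Agent.H2xRK

lemma code_iff (n a b t : ℕ) (θ : ℝ) (X : Finset (EuclideanSpace ℝ (Fin n))) (y : Finset X → ℝ) :
    IsPseudoCode n a b t θ X y ↔ GCode n a b t (Real.cos θ) X y :=
  ⟨fun h => ⟨h.one, h.sep, h.nonneg, h.psd⟩, fun h => ⟨h.one, h.sep, h.nonneg, h.psd⟩⟩

lemma bound_iff (n a b t : ℕ) (θ B : ℝ) : IsBound n a b t θ B ↔ GSB n a b t (Real.cos θ) B := by
  unfold IsBound GSB
  simp only [code_iff]

lemma bound_eq (n a b t : ℕ) (θ : ℝ) : bound n a b t θ = GS n a b t (Real.cos θ) := by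
  unfold bound GS
  simp only [bound_iff]

section

variable {θ : ℝ} (h0 : 0 < θ) (h1 : θ < Real.pi / 2)
include h0 h1

lemma cos_mem : 0 < Real.cos θ ∧ Real.cos θ < 1 := by
  refine ⟨Real.cos_pos_of_mem_Ioo ⟨by linarith [Real.pi_pos], h1⟩, ?_⟩
  rw [← Real.cos_zero]
  exact Real.cos_lt_cos_of_nonneg_of_le_pi le_rfl (by linarith [Real.pi_pos]) h0

lemma sin_half : 0 < Real.sin (θ / 2) := Pool.Agent.H85G.sin_half h0 h1

lemma sin_pos : 0 < Real.sin θ := Pool.Agent.H85G.sin_pos h0 h1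

lemma sqrt_cos : √(1 - Real.cos θ ^ 2) = Real.sin θ := by
  rw [← Real.sin_sq, Real.sqrt_sq (sin_pos h0 h1).le]

lemma wyner_log : Real.log 2 * wyner θ = -(1 / 2 * Real.log (1 - Real.cos θ ^ 2)) := by
  have h2 : 0 < Real.log 2 := Real.log_pos (by norm_num)
  unfold wyner Real.logb
  rw [← Real.sin_sq, Real.log_pow]
  push_cast
  field_simp

lemma margin_log (m : ℕ) : Real.log 2 * margin θ m = Fc (Real.cos θ) m := by
  have h2 : 0 < Real.log 2 := Real.log_pos (by norm_num)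
  unfold margin Fc
  rw [← wyner_log h0 h1]
  unfold Real.logb
  field_simp

lemma value (γ : ℝ) (n t : ℕ) :
    (1 / √(1 - Real.cos θ ^ 2)) ^ n * Real.exp (Real.log 2 * γ * n / t) =
      (2 : ℝ) ^ ((wyner θ + γ / t) * n) := by
  rw [sqrt_cos h0 h1]
  have hs := sin_pos h0 h1
  have e1 : (1 / Real.sin θ) ^ n = (2 : ℝ) ^ (wyner θ * n) := by
    unfold wyner
    rw [Real.rpow_mul (by norm_num), Real.rpow_neg (by norm_num),
      Real.rpow_logb (by norm_num) (by norm_num) hs, Real.rpow_natCast, one_div]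
  rw [e1, add_mul, Real.rpow_add (by norm_num)]
  congr 1
  rw [Real.rpow_def_of_pos (by norm_num : (0 : ℝ) < 2)]
  congr 1
  ring

/-- the lower bound -/
lemma lower2 {m : ℕ} {κ γ : ℝ} (hmE : Even m) (hm0 : m ≠ 0) (hγ : 0 ≤ γ) (hγκ : γ ≤ κ)
    (h : κ + (m - 1 : ℕ) * γ < margin θ m) :
    ∃ c : ℝ, 0 < c ∧ ∀ᶠ n : ℕ in atTop, ∀ a b t : ℕ, 1 ≤ t → (a : ℝ) ≤ 2 ^ (κ * n) →
      (t : ℝ) ≤ c * n / Real.log n →
        (2 : ℝ) ^ ((wyner θ + γ / t) * n) ≤ bound n a b t θ := by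
  have h2 : 0 < Real.log 2 := Real.log_pos (by norm_num)
  obtain ⟨hc0, hc1⟩ := cos_mem h0 h1
  obtain ⟨c', hc', n₀, hn₀⟩ := lower (κ := Real.log 2 * κ) (γ := Real.log 2 * γ) hc0 hc1 hmE hm0
    (by positivity) (mul_le_mul_of_nonneg_left hγκ h2.le) (by
      rw [← margin_log h0 h1]
      have := mul_lt_mul_of_pos_left h h2
      linarith)
  refine ⟨c', hc', ?_⟩
  filter_upwards [eventually_ge_atTop n₀, eventually_ge_atTop 3] with n hn hn3 a b t ht ha htc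
  have hn3' : (3 : ℝ) ≤ n := by exact_mod_cast hn3
  have hlog : 0 < Real.log n := Real.log_pos (by linarith)
  rw [bound_eq, ← value h0 h1]
  refine le_GS ht hc1 fun B hB => hn₀ n hn a b t ht ?_ ?_ B hB
  · refine ha.trans (le_of_eq ?_)
    rw [Real.rpow_def_of_pos (by norm_num : (0 : ℝ) < 2)]
    congr 1
    ring
  · rwa [le_div_iff₀ hlog] at htc

lemma lower3 {κ : ℝ} (hκ : κ < wyner θ) :
    ∃ γ : ℝ, 0 < γ ∧ ∃ c : ℝ, 0 < c ∧ ∀ᶠ n : ℕ in atTop, ∀ a b t : ℕ, 1 ≤ t →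
      (a : ℝ) ≤ 2 ^ (κ * n) → (t : ℝ) ≤ c * n / Real.log n →
        (2 : ℝ) ^ ((wyner θ + γ / t) * n) ≤ bound n a b t θ := by
  have h2 : 0 < Real.log 2 := Real.log_pos (by norm_num)
  obtain ⟨hc0, hc1⟩ := cos_mem h0 h1
  obtain ⟨m, κ', γ, hmE, hm0, hγ0, hγκ, hκκ, hF⟩ := exists_m (κ := Real.log 2 * κ) hc0 hc1 (by
    rw [← wyner_log h0 h1]
    exact mul_lt_mul_of_pos_left hκ h2)
  rw [← margin_log h0 h1] at hF
  have e1 : Real.log 2 * (κ' / Real.log 2) = κ' := by field_simp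
  have e2 : Real.log 2 * (γ / Real.log 2) = γ := by field_simp
  obtain ⟨c, hc, hn⟩ := lower2 h0 h1 (κ := κ' / Real.log 2) (γ := γ / Real.log 2) hmE hm0
    (by positivity) (by gcongr) (by
      refine lt_of_mul_lt_mul_left ?_ h2.le
      rw [mul_add, e1, mul_left_comm, e2]
      exact hF)
  refine ⟨γ / Real.log 2, by positivity, c, hc, ?_⟩
  filter_upwards [hn] with n hn a b t ht ha htc
  refine hn a b t ht (ha.trans ?_) htc
  refine Real.rpow_le_rpow_of_exponent_le (by norm_num) ?_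
  refine mul_le_mul_of_nonneg_right ?_ (Nat.cast_nonneg n)
  rw [le_div_iff₀ h2]
  linarith

/-- the rounds which are needed -/
lemma rounds {κ : ℝ} (hκ : κ < wyner θ) (p : ℝ) :
    ∃ c : ℝ, 0 < c ∧ ∀ᶠ n : ℕ in atTop, ∀ a b t : ℕ, 1 ≤ t →
      bound n a b t θ ≤ (n : ℝ) ^ p * (2 : ℝ) ^ (wyner θ * n) →
        (2 : ℝ) ^ (κ * n) < a ∨ c * n / Real.log n < t := by
  have h2 : 0 < Real.log 2 := Real.log_pos (by norm_num)
  obtain ⟨γ, hγ, c, hc, hn⟩ := lower3 h0 h1 hκ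
  obtain ⟨p', hp'⟩ : ∃ p' : ℝ, p' = max p 1 := ⟨_, rfl⟩
  have hp0 : 0 < p' := by rw [hp']; exact lt_of_lt_of_le one_pos (le_max_right _ _)
  have hpp : p ≤ p' := by rw [hp']; exact le_max_left _ _
  obtain ⟨c', hc'⟩ : ∃ c' : ℝ, c' = min c (γ * Real.log 2 / (2 * p')) := ⟨_, rfl⟩
  have hc'0 : 0 < c' := by rw [hc']; exact lt_min hc (by positivity)
  have hc'1 : c' ≤ c := by rw [hc']; exact min_le_left _ _
  have hc'2 : c' ≤ γ * Real.log 2 / (2 * p') := by rw [hc']; exact min_le_right _ _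
  refine ⟨c', hc'0, ?_⟩
  filter_upwards [hn, eventually_ge_atTop 3] with n hn hn3 a b t ht hb
  have hn3' : (3 : ℝ) ≤ n := by exact_mod_cast hn3
  have hn0 : (0 : ℝ) < n := by linarith
  have hlog : 0 < Real.log n := Real.log_pos (by linarith)
  by_contra hcon
  rw [not_or, not_lt, not_lt] at hcon
  obtain ⟨ha, htc⟩ := hcon
  have ht0 : (0 : ℝ) < t := by exact_mod_cast ht
  have htc1 : (t : ℝ) ≤ c * n / Real.log n := by
    refine htc.trans ?_
    gcongr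
  have h3 := (hn a b t ht ha htc1).trans hb
  have h4 : (n : ℝ) ^ p * (2 : ℝ) ^ (wyner θ * n) ≤
      (2 : ℝ) ^ (γ / t * n / 2) * (2 : ℝ) ^ (wyner θ * n) := by
    refine mul_le_mul_of_nonneg_right ?_ (Real.rpow_nonneg (by norm_num) _)
    rw [Real.rpow_def_of_pos hn0, Real.rpow_def_of_pos (by norm_num : (0 : ℝ) < 2), Real.exp_le_exp]
    have e1 : (t : ℝ) * Real.log n ≤ γ * Real.log 2 / (2 * p') * n := by
      rw [le_div_iff₀ hlog] at htc
      exact htc.trans (mul_le_mul_of_nonneg_right hc'2 hn0.le)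
    have e2 : Real.log n * p ≤ Real.log n * p' := mul_le_mul_of_nonneg_left hpp hlog.le
    refine e2.trans ?_
    have e3 : Real.log 2 * (γ / t * n / 2) = γ * Real.log 2 * n / 2 / t := by ring
    rw [e3, le_div_iff₀ ht0]
    have e4 : γ * Real.log 2 / (2 * p') * n * p' = γ * Real.log 2 * n / 2 := by
      field_simp
    have e5 := mul_le_mul_of_nonneg_right e1 hp0.le
    rw [e4] at e5
    linarith
  have h5 := h3.trans h4
  rw [← Real.rpow_add (by norm_num)] at h5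
  have h6 := (Real.rpow_le_rpow_left_iff (by norm_num : (1 : ℝ) < 2)).1 h5
  have h7 : 0 < γ / t * n := by positivity
  linarith

lemma A_eq (n : ℕ) : A n θ = Pool.Agent.H818R2.sphMax n θ := rfl

lemma card_le {n : ℕ} (hn : 1 ≤ n) {C : Finset (EuclideanSpace ℝ (Fin n))} (hC : IsCode n θ C) :
    C.card ≤ A n θ := by
  have : NeZero n := ⟨by omega⟩
  exact Pool.Agent.H818R2.le_sphMax (sin_half h0 h1) hC

lemma exists_A {n : ℕ} (hn : 1 ≤ n) : ∃ C : Finset (EuclideanSpace ℝ (Fin n)),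
    IsCode n θ C ∧ C.card = A n θ := by
  have : NeZero n := ⟨by omega⟩
  exact Nat.sSup_mem (Pool.Agent.H818R2.sph_nonempty n θ)
    (Pool.Agent.H818R2.sph_bdd (sin_half h0 h1))

lemma valid {n a b t : ℕ} (hn : 1 ≤ n) (ht : 1 ≤ t) : (A n θ : ℝ) ≤ bound n a b t θ := by
  obtain ⟨C, hC, hCc⟩ := exists_A h0 h1 hn
  rw [← hCc, bound_eq]
  exact le_GS ht (cos_mem h0 h1).2 fun B hB => gsb_card hB hC.1 hC.2

lemma exact_le {n a b t : ℕ} (hn : 1 ≤ n) (ht : 1 ≤ t) (ha : A n θ ≤ a + 1) :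
    bound n a b t θ ≤ A n θ := by
  rw [bound_eq]
  exact GS_le (gsb_exact ht ha fun C hC1 hC2 => card_le h0 h1 hn ⟨hC1, hC2⟩)

lemma one_step {n : ℕ} (hn : 2 ≤ n) {ε : ℝ} :
    (Pool.Agent.H818R2.codeRate θ n ≤ wyner θ + ε →
      bound n ⌈(2 : ℝ) ^ ((wyner θ + ε) * n)⌉₊ 0 1 θ ≤ (2 : ℝ) ^ ((wyner θ + ε) * n)) ∧
    (bound n ⌈(2 : ℝ) ^ ((wyner θ + ε) * n)⌉₊ 0 1 θ ≤ (2 : ℝ) ^ ((wyner θ + ε) * n) →
      Pool.Agent.H818R2.codeRate θ n ≤ wyner θ + ε) := by
  have hn0 : (0 : ℝ) < n := by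
    have : 0 < n := by omega
    exact_mod_cast this
  have hA0 : (0 : ℝ) < A n θ := Pool.Agent.H818R2.sphMax_pos hn (sin_half h0 h1)
  have hrate : Pool.Agent.H818R2.codeRate θ n = Real.logb 2 (A n θ) / n := rfl
  rw [hrate]
  constructor
  · intro h
    rw [div_le_iff₀ hn0, Real.logb_le_iff_le_rpow (by norm_num) hA0] at h
    refine (exact_le h0 h1 (by omega) le_rfl ?_).trans h
    have h3 : (A n θ : ℝ) ≤ ⌈(2 : ℝ) ^ ((wyner θ + ε) * n)⌉₊ := h.trans (Nat.le_ceil _)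
    have h4 : A n θ ≤ ⌈(2 : ℝ) ^ ((wyner θ + ε) * n)⌉₊ := by exact_mod_cast h3
    omega
  · intro h
    rw [div_le_iff₀ hn0, Real.logb_le_iff_le_rpow (by norm_num) hA0]
    exact (valid h0 h1 (by omega) le_rfl).trans h

/-- the upper exponent -/
lemma tight_sup : limsup (fun n : ℕ => Real.logb 2 (A n θ) / n) atTop = wyner θ ↔
    ∀ ε : ℝ, 0 < ε → ∀ᶠ n : ℕ in atTop,
      bound n ⌈(2 : ℝ) ^ ((wyner θ + ε) * n)⌉₊ 0 1 θ ≤ (2 : ℝ) ^ ((wyner θ + ε) * n) := by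
  have hb1 := Pool.Agent.H85G.bdd_above h0 h1
  have hb2 := Pool.Agent.H85G.bdd_below (θ := θ)
  have hge : wyner θ ≤ limsup (Pool.Agent.H818R2.codeRate θ) atTop :=
    (Pool.Agent.H85G.le_liminf h0 h1).trans (Pool.Agent.H85G.liminf_le_limsup' h0 h1)
  change limsup (Pool.Agent.H818R2.codeRate θ) atTop = wyner θ ↔ _
  constructor
  · intro hR ε hε
    have h2 : ∀ᶠ n : ℕ in atTop, Pool.Agent.H818R2.codeRate θ n < wyner θ + ε :=
      eventually_lt_of_limsup_lt (by rw [hR]; linarith) hb1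
    filter_upwards [h2, eventually_ge_atTop 2] with n hn hn2
    exact (one_step h0 h1 hn2).1 hn.le
  · intro h
    refine le_antisymm (le_of_forall_pos_le_add fun ε hε => ?_) hge
    refine limsup_le_of_le hb2.isCoboundedUnder_le ?_
    filter_upwards [h ε hε, eventually_ge_atTop 2] with n hn hn2
    exact (one_step h0 h1 hn2).2 hn

/-- the lower exponent -/
lemma tight_inf : liminf (fun n : ℕ => Real.logb 2 (A n θ) / n) atTop = wyner θ ↔
    ∀ ε : ℝ, 0 < ε → ∃ᶠ n : ℕ in atTop,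
      bound n ⌈(2 : ℝ) ^ ((wyner θ + ε) * n)⌉₊ 0 1 θ ≤ (2 : ℝ) ^ ((wyner θ + ε) * n) := by
  have hb1 := Pool.Agent.H85G.bdd_above h0 h1
  have hb2 := Pool.Agent.H85G.bdd_below (θ := θ)
  have hge : wyner θ ≤ liminf (Pool.Agent.H818R2.codeRate θ) atTop :=
    Pool.Agent.H85G.le_liminf h0 h1
  change liminf (Pool.Agent.H818R2.codeRate θ) atTop = wyner θ ↔ _
  constructor
  · intro hR ε hε
    have h2 : ∃ᶠ n : ℕ in atTop, Pool.Agent.H818R2.codeRate θ n < wyner θ + ε :=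
      frequently_lt_of_liminf_lt hb1.isCoboundedUnder_ge (by rw [hR]; linarith)
    refine (h2.and_eventually (eventually_ge_atTop 2)).mono fun n hn => ?_
    exact (one_step h0 h1 hn.2).1 hn.1.le
  · intro h
    refine le_antisymm (le_of_forall_pos_le_add fun ε hε => ?_) hge
    refine liminf_le_of_frequently_le ?_ hb2
    refine ((h ε hε).and_eventually (eventually_ge_atTop 2)).mono fun n hn => ?_
    exact (one_step h0 h1 hn.2).2 hn.1

end

lemma mono_a {n a b t : ℕ} {θ : ℝ} (h0 : 0 < θ) (h1 : θ < Real.pi / 2) (ht : 1 ≤ t) :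
    bound n (a + 1) b t θ ≤ bound n a b t θ := by
  rw [bound_eq, bound_eq]
  exact le_GS ht (cos_mem h0 h1).2 fun B hB => GS_le (gsb_mono (Nat.le_succ a) le_rfl hB)

lemma mono_b {n a b t : ℕ} {θ : ℝ} (h0 : 0 < θ) (h1 : θ < Real.pi / 2) (ht : 1 ≤ t) :
    bound n a (b + 1) t θ ≤ bound n a b t θ := by
  rw [bound_eq, bound_eq]
  exact le_GS ht (cos_mem h0 h1).2 fun B hB => GS_le (gsb_mono le_rfl (Nat.le_succ b) hB)

lemma kiss_w : wyner (Real.pi / 3) = 1 / 2 * Real.logb 2 (4 / 3) := by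
  unfold wyner
  rw [Real.sin_pi_div_three]
  have h : (4 : ℝ) / 3 = ((√3 / 2) ^ 2)⁻¹ := by
    rw [div_pow, Real.sq_sqrt (by norm_num)]; norm_num
  rw [h, Real.logb_inv, Real.logb_pow]
  push_cast
  ring

lemma log3 : Real.log 3 < 109862 / 100000 := by
  have h2 := Real.log_two_lt_d9
  have h3 : 12 * Real.log 3 = 19 * Real.log 2 + Real.log (531441 / 524288) := by
    have e1 : Real.log ((3 : ℝ) ^ 12) = 12 * Real.log 3 := by
      rw [Real.log_pow]
      norm_num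
    have e2 : Real.log ((2 : ℝ) ^ 19) = 19 * Real.log 2 := by
      rw [Real.log_pow]
      norm_num
    rw [← e1, ← e2, ← Real.log_mul (by norm_num) (by norm_num)]
    norm_num
  have h4 := Real.log_le_sub_one_of_pos (show (0 : ℝ) < 531441 / 524288 by norm_num)
  norm_num at h4
  linarith

lemma kiss_margin : 18 / 100 < margin (Real.pi / 3) 6 := by
  have hpi := Real.pi_pos
  have h2 : 0 < Real.log 2 := Real.log_pos (by norm_num)
  refine lt_of_mul_lt_mul_left ?_ h2.le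
  rw [margin_log (by positivity) (by linarith)]
  unfold Fc
  rw [Real.cos_pi_div_three]
  have e1 : (1 : ℝ) - (1 / 2) ^ 2 = 3 / 4 := by norm_num
  have e2 : (1 : ℝ) - ((1 / 2) ^ 6) ^ 2 = 4095 / 4096 := by norm_num
  rw [e1, e2, Real.log_div (by norm_num) (by norm_num)]
  have e3 : Real.log 4 = 2 * Real.log 2 := by
    rw [show (4 : ℝ) = 2 ^ 2 by norm_num, Real.log_pow]
    norm_num
  have e4 := Real.one_sub_inv_le_log_of_pos (show (0 : ℝ) < 4095 / 4096 by norm_num)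
  have e5 := log3
  have e6 := Real.log_two_gt_d9
  have e7 := Real.log_two_lt_d9
  rw [e3]
  norm_num at e4 ⊢
  linarith

/-- **Rounds of conditioning and Wyner's bound.** -/
theorem result :
    -- the bounds are valid, monotone, and exact if `a + 1 ≥ A(n, θ)`
    (∀ (θ : ℝ), 0 < θ → θ < Real.pi / 2 → ∀ n a b t : ℕ, 1 ≤ n → 1 ≤ t →
      (A n θ : ℝ) ≤ bound n a b t θ ∧ bound n (a + 1) b t θ ≤ bound n a b t θ ∧
      bound n a (b + 1) t θ ≤ bound n a b t θ ∧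
      (A n θ ≤ a + 1 → bound n a b t θ = A n θ)) ∧
    -- the trade-off between the number of the included points and the gain
    (∀ θ : ℝ, 0 < θ → θ < Real.pi / 2 → ∀ (m : ℕ) (κ γ : ℝ), Even m → m ≠ 0 → 0 ≤ γ → γ ≤ κ →
      κ + (m - 1 : ℕ) * γ < margin θ m →
      ∃ c : ℝ, 0 < c ∧ ∀ᶠ n : ℕ in atTop, ∀ a b t : ℕ, 1 ≤ t → (a : ℝ) ≤ 2 ^ (κ * n) →
        (t : ℝ) ≤ c * n / Real.log n → (2 : ℝ) ^ ((wyner θ + γ / t) * n) ≤ bound n a b t θ) ∧
    -- all exponents below Wyner's exponent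
    (∀ θ : ℝ, 0 < θ → θ < Real.pi / 2 → ∀ κ : ℝ, κ < wyner θ →
      ∃ γ : ℝ, 0 < γ ∧ ∃ c : ℝ, 0 < c ∧ ∀ᶠ n : ℕ in atTop, ∀ a b t : ℕ, 1 ≤ t →
        (a : ℝ) ≤ 2 ^ (κ * n) → (t : ℝ) ≤ c * n / Real.log n →
          (2 : ℝ) ^ ((wyner θ + γ / t) * n) ≤ bound n a b t θ) ∧
    -- the rounds which are needed for Wyner's bound up to a power of `n`
    (∀ θ : ℝ, 0 < θ → θ < Real.pi / 2 → ∀ κ : ℝ, κ < wyner θ → ∀ p : ℝ,
      ∃ c : ℝ, 0 < c ∧ ∀ᶠ n : ℕ in atTop, ∀ a b t : ℕ, 1 ≤ t →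
        bound n a b t θ ≤ (n : ℝ) ^ p * (2 : ℝ) ^ (wyner θ * n) →
          (2 : ℝ) ^ (κ * n) < a ∨ c * n / Real.log n < t) ∧
    -- when Wyner's bound is sharp
    (∀ θ : ℝ, 0 < θ → θ < Real.pi / 2 →
      (limsup (fun n : ℕ => Real.logb 2 (A n θ) / n) atTop = wyner θ ↔
        ∀ ε : ℝ, 0 < ε → ∀ᶠ n : ℕ in atTop,
          bound n ⌈(2 : ℝ) ^ ((wyner θ + ε) * n)⌉₊ 0 1 θ ≤ (2 : ℝ) ^ ((wyner θ + ε) * n)) ∧
      (liminf (fun n : ℕ => Real.logb 2 (A n θ) / n) atTop = wyner θ ↔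
        ∀ ε : ℝ, 0 < ε → ∃ᶠ n : ℕ in atTop,
          bound n ⌈(2 : ℝ) ^ ((wyner θ + ε) * n)⌉₊ 0 1 θ ≤ (2 : ℝ) ^ ((wyner θ + ε) * n))) ∧
    -- kissing numbers
    wyner (Real.pi / 3) = 1 / 2 * Real.logb 2 (4 / 3) ∧
    (∃ c : ℝ, 0 < c ∧ ∀ᶠ n : ℕ in atTop, ∀ a b t : ℕ, 1 ≤ t →
      (a : ℝ) ≤ 2 ^ ((3 / 100 : ℝ) * n) → (t : ℝ) ≤ c * n / Real.log n →
        (2 : ℝ) ^ ((1 / 2 * Real.logb 2 (4 / 3) + 3 / 100 / t) * n) ≤
          bound n a b t (Real.pi / 3)) := by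
  have hpi := Real.pi_pos
  refine ⟨fun θ h0 h1 n a b t hn ht => ⟨valid h0 h1 hn ht, mono_a h0 h1 ht, mono_b h0 h1 ht,
    fun ha => le_antisymm (exact_le h0 h1 hn ht ha) (valid h0 h1 hn ht)⟩,
    fun θ h0 h1 m κ γ hm hm0 hγ hγκ h => lower2 h0 h1 hm hm0 hγ hγκ h,
    fun θ h0 h1 κ hκ => lower3 h0 h1 hκ, fun θ h0 h1 κ hκ p => rounds h0 h1 hκ p,
    fun θ h0 h1 => ⟨tight_sup h0 h1, tight_inf h0 h1⟩, kiss_w, ?_⟩
  have h := lower2 (θ := Real.pi / 3) (m := 6) (κ := 3 / 100) (γ := 3 / 100) (by positivity)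
    (by linarith) (by decide) (by norm_num) (by norm_num) le_rfl (by
      refine lt_of_le_of_lt (le_of_eq ?_) kiss_margin
      norm_num)
  rw [kiss_w] at h
  exact h

end Pool.Agent.Results.MP_b5f63d_co.RoundsKissing
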